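import Pool.Agent.H5.WI.Asm

/-!
# Weakly independent sequences with boundedly many nonzero digits

Let `λ_0 < λ_1 < λ_2 < …` be positive integers with `λ_k ∣ λ_{k+1}` (the powers of `2` or of any other base,
the factorials, any mixed radix scale). Let `(a_i)` be a weakly independent sequence of positive integers
such that every `a_i` is a sum of at most `r` numbers `±λ_k` (repetitions allowed). Then for every `K` the
sequence splits into at most `10 r (r+1)^2 (2r+1) g` classes, `2^g > K r^2`, such that no class has a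
nontrivial relation `∑ ε_i a_i = 0` with `|ε_i| ≤ K`. For `K = 2` the classes are strongly independent.
-/

set_option autoImplicit false

namespace Pool.Agent.Results.MP_155122_nt.BoundedDigits

/-- The subfamily `(a i)`, `i ∈ S`, has no nontrivial finite relation with coefficients in `[-K, K]`.
For `K = 1` it is weakly independent, for `K = 2` strongly independent. -/
def Independent (K : ℕ) (a : ℕ → ℕ) (S : Set ℕ) : Prop :=
  ∀ s : Finset ℕ, (∀ i ∈ s, i ∈ S) → ∀ ε : ℕ → ℤ, (∀ i ∈ s, |ε i| ≤ K) →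
    ∑ i ∈ s, ε i * (a i : ℤ) = 0 → ∀ i ∈ s, ε i = 0

/-- `n` is a sum of at most `r` of the numbers `±lam k`, with repetitions. -/
def FewDigits (lam : ℕ → ℕ) (r n : ℕ) : Prop :=
  ∃ c : ℕ →₀ ℤ, ∑ k ∈ c.support, |c k| ≤ (r : ℤ) ∧ (n : ℤ) = ∑ k ∈ c.support, c k * (lam k : ℤ)

/-- **Weakly independent sequences with boundedly many digits.** -/
theorem result (r K g : ℕ) (hr : 1 ≤ r) (hg : 1 ≤ g) (hK : K * r ^ 2 < 2 ^ g)
    (lam : ℕ → ℕ) (h0 : 0 < lam 0) (hlt : ∀ k, lam k < lam (k + 1))
    (hdvd : ∀ k, lam k ∣ lam (k + 1)) (a : ℕ → ℕ) (ha : ∀ i, 0 < a i)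
    (hweak : Independent 1 a Set.univ) (hdig : ∀ i, FewDigits lam r (a i)) :
    ∃ f : ℕ → Fin (10 * r * (r + 1) ^ 2 * (2 * r + 1) * g),
      ∀ j, Independent K a {i | f i = j} := by
  choose c hc hac using hdig
  have hm : Pool.Agent.H5.WI.mm r g = 10 * r * (r + 1) ^ 2 * (2 * r + 1) * g := by
    unfold Pool.Agent.H5.WI.mm
    ring
  rw [← hm]
  obtain ⟨f, hf⟩ := Pool.Agent.H5.WI.main_digits (lam := lam) h0 hlt hdvd hr hg hK
    (a := fun i => (a i : ℤ)) (fun i => by
      have := ha i
      have h : (a i : ℤ) ≠ 0 := by exact_mod_cast this.ne'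
      exact h)
    (fun s ε hε h => hweak s (fun i _ => Set.mem_univ i) ε (by exact_mod_cast hε) h) c
    (fun i => by
      have h := hc i
      have e : ((∑ p ∈ (c i).support, (c i p).natAbs : ℕ) : ℤ) = ∑ p ∈ (c i).support, |c i p| := by
        push_cast
        rfl
      rw [← e] at h
      exact_mod_cast h) hac
  exact ⟨f, fun j s hs ε hε h => hf j s hs ε hε h⟩

end Pool.Agent.Results.MP_155122_nt.BoundedDigits
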