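import Pool.Agent.H5.WI.Lac
import Pool.Agent.H5.WI.Equiv

/-!
# The density threshold for Q1

Let `A(x)` be the number of terms `≤ x` of a weakly independent sequence. It is a finite union of strongly
independent sequences when `A(x) ≥ log_2 x - C`. With any function `ω → ∞` in place of `C`, this statement is
equivalent to the whole question, and so is its restriction to the sequences with `A(x) ≤ ω(x)`.
-/

set_option autoImplicit false

namespace Pool.Agent.Results.MP_155122_nt.DensityThreshold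

/-- The subfamily `(a i)`, `i ∈ S`, has no nontrivial finite relation with coefficients in `[-K, K]`.
For `K = 1` it is weakly independent, for `K = 2` strongly independent. -/
def Independent (K : ℕ) (a : ℕ → ℕ) (S : Set ℕ) : Prop :=
  ∀ s : Finset ℕ, (∀ i ∈ s, i ∈ S) → ∀ ε : ℕ → ℤ, (∀ i ∈ s, |ε i| ≤ K) →
    ∑ i ∈ s, ε i * (a i : ℤ) = 0 → ∀ i ∈ s, ε i = 0

/-- `(a i)` is a weakly independent sequence of positive integers. -/
def Weak (a : ℕ → ℕ) : Prop := (∀ i, 0 < a i) ∧ Independent 1 a Set.univ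

/-- The sequence is a finite union of strongly independent sequences. -/
def FinUnion (a : ℕ → ℕ) : Prop :=
  ∃ m : ℕ, ∃ f : ℕ → Fin m, ∀ j, Independent 2 a {i | f i = j}

/-- The number of terms at most `x`. -/
noncomputable def count (a : ℕ → ℕ) (x : ℕ) : ℕ := {i | a i ≤ x}.ncard

/-- **The density threshold.** -/
theorem result :
    (∀ C K T : ℕ, 1 ≤ T → 2 * K < 2 ^ T → ∀ a, Weak a →
      (∀ x : ℕ, 1 ≤ x → Real.logb 2 x ≤ count a x + C) →
      ∃ f : ℕ → Fin ((2 * C + 10) * T), ∀ j, Independent K a {i | f i = j}) ∧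
    (∀ ω : ℕ → ℝ, (∀ x, 0 ≤ ω x) → Filter.Tendsto ω Filter.atTop Filter.atTop →
      ((∀ a, Weak a → (∀ x : ℕ, 1 ≤ x → Real.logb 2 x ≤ count a x + ω x) → FinUnion a) ↔
        ∀ a, Weak a → FinUnion a) ∧
      ((∀ a, Weak a → (∀ x : ℕ, (count a x : ℝ) ≤ ω x) → FinUnion a) ↔
        ∀ a, Weak a → FinUnion a)) := by
  have hU : Pool.Agent.H5.WI.Unif → ∀ a, Weak a → FinUnion a := fun h a ha =>
    Pool.Agent.H5.WI.finU_of_unif h ha.1 ha.2
  refine ⟨?_, ?_⟩
  · intro C K T hT hK a ha hA
    obtain ⟨f, hf⟩ := Pool.Agent.H5.WI.main_dense (a := a) ha.1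
      (fun s ε hε h => ha.2 s (fun i _ => Set.mem_univ i) ε (by exact_mod_cast hε) h) C hA hT hK
    exact ⟨f, fun j s hs ε hε h => hf j s hs ε hε h⟩
  · intro ω h0 hω
    constructor
    · constructor
      · intro h
        apply hU
        by_contra hcon
        obtain ⟨a, ha1, ha2, ha3, ha4⟩ := (Pool.Agent.H5.WI.bad_of_not_unif hcon h0 hω).1
        exact ha4 (h a ⟨ha1, ha2⟩ ha3)
      · intro h a ha _
        exact h a ha
    · constructor
      · intro h
        apply hU
        by_contra hcon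
        obtain ⟨a, ha1, ha2, ha3, ha4⟩ := (Pool.Agent.H5.WI.bad_of_not_unif hcon h0 hω).2
        exact ha4 (h a ⟨ha1, ha2⟩ ha3)
      · intro h a ha _
        exact h a ha

end Pool.Agent.Results.MP_155122_nt.DensityThreshold
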