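import Pool.Agent.H5.WL.Lwr
import Pool.Agent.H33.TW.Few

/-!
# Weakly independent sequences and short relations

Every weakly independent sequence splits into `O(K + log k)` classes, none of which has a nontrivial
relation of at most `k` terms with coefficients in `[-K, K]`; at least `π(K)` classes can be necessary
already for `k = 2`. Every weakly independent set of `n` elements splits into `O(log h + log log n)`
classes without relations of any length with coefficients in `[-2, 2]` of which at most `h` are `±2`, or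
at most `h` are `±1`.
-/

set_option autoImplicit false

namespace Pool.Agent.Results.MP_155122_nt.ShortRelations

/-- The subfamily `(a i)`, `i ∈ S`, has no nontrivial finite relation with coefficients in `[-K, K]`.
For `K = 1` it is weakly independent, for `K = 2` strongly independent. -/
def Independent (K : ℕ) (a : ℕ → ℕ) (S : Set ℕ) : Prop :=
  ∀ s : Finset ℕ, (∀ i ∈ s, i ∈ S) → ∀ ε : ℕ → ℤ, (∀ i ∈ s, |ε i| ≤ K) →
    ∑ i ∈ s, ε i * (a i : ℤ) = 0 → ∀ i ∈ s, ε i = 0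

/-- The subfamily `(a i)`, `i ∈ S`, has no nontrivial relation with at most `k` terms and coefficients in
`[-K, K]`. -/
def ShortIndependent (K k : ℕ) (a : ℕ → ℕ) (S : Set ℕ) : Prop :=
  ∀ s : Finset ℕ, (∀ i ∈ s, i ∈ S) → s.card ≤ k → ∀ ε : ℕ → ℤ, (∀ i ∈ s, |ε i| ≤ K) →
    ∑ i ∈ s, ε i * (a i : ℤ) = 0 → ∀ i ∈ s, ε i = 0

/-- The subfamily `(a i)`, `i ∈ S`, has no nontrivial finite relation with coefficients in `[-2, 2]`, at
most `h` of which are `±2` or at most `h` of which are `±1`. -/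
def FewIndependent (h : ℕ) (a : ℕ → ℕ) (S : Set ℕ) : Prop :=
  ∀ s : Finset ℕ, (∀ i ∈ s, i ∈ S) → ∀ ε : ℕ → ℤ, (∀ i ∈ s, |ε i| ≤ 2) →
    ((s.filter (fun i => |ε i| = 2)).card ≤ h ∨ (s.filter (fun i => |ε i| = 1)).card ≤ h) →
    ∑ i ∈ s, ε i * (a i : ℤ) = 0 → ∀ i ∈ s, ε i = 0

/-- `(a i)` is a weakly independent sequence of positive integers. -/
def Weak (a : ℕ → ℕ) : Prop := (∀ i, 0 < a i) ∧ Independent 1 a Set.univ

/-- **Short relations.** -/
theorem result :
    (∀ k m : ℕ, 1 ≤ k → 5 * Real.log k + 12 ≤ m → ∀ a, Weak a →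
      ∃ f : ℕ → Fin m, ∀ j, ShortIndependent 2 k a {i | f i = j}) ∧
    (∀ K k m : ℕ, 1 ≤ K → 1 ≤ k → 5 * Real.log k + 30 * K ≤ m → ∀ a, Weak a →
      ∃ f : ℕ → Fin m, ∀ j, ShortIndependent K k a {i | f i = j}) ∧
    (∀ K : ℕ, ∃ a, Weak a ∧ ∀ m : ℕ,
      (∃ f : ℕ → Fin m, ∀ j, ShortIndependent K 2 a {i | f i = j}) → Nat.primeCounting K ≤ m) ∧
    (∀ h n m : ℕ, 5 * Real.log ((h * Nat.clog 2 n + 12 : ℕ) : ℝ) + 12 ≤ m → ∀ a, Weak a →
      ∀ A : Finset ℕ, A.card ≤ n →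
      ∃ f : ℕ → Fin (8 * m), ∀ j, FewIndependent h a {i | i ∈ A ∧ f i = j}) := by
  refine ⟨fun _ _ hk hm _ ha => H5WL.main_two hk hm ha.2,
    fun _ _ _ hK hk hm _ ha => H5WL.main_gen hK hk hm ha.2,
    fun K => ⟨H5WL.lo (Nat.primeCounting K), ⟨H5WL.lo_pos _, H5WL.lo_ind _⟩,
      fun m ⟨f, hf⟩ => H5WL.main_lower K m f hf⟩, fun h n m hm a ha A hA => ?_⟩
  apply H33TW.few A (Pool.Agent.H5.WI.ind_mono (Set.subset_univ _) ha.2)
  refine le_trans ?_ hm
  have h1 : h * Nat.clog 2 A.card + 12 ≤ h * Nat.clog 2 n + 12 :=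
    Nat.add_le_add_right (Nat.mul_le_mul_left _ (Nat.clog_mono_right 2 hA)) 12
  have h2 : Real.log ((h * Nat.clog 2 A.card + 12 : ℕ) : ℝ) ≤
      Real.log ((h * Nat.clog 2 n + 12 : ℕ) : ℝ) :=
    Real.log_le_log (by positivity) (by exact_mod_cast h1)
  linarith

end Pool.Agent.Results.MP_155122_nt.ShortRelations
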