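import Pool.Agent.H5.WI.Low

/-!
# Two classes are not enough

There is a weakly independent sequence of positive integers with at least `log_2 x - 2` terms up to `x`
for every `x` which is not a union of two strongly independent sequences.
-/

set_option autoImplicit false

namespace Pool.Agent.Results.MP_155122_nt.ThreeClasses

/-- The subfamily `(a i)`, `i ∈ S`, has no nontrivial finite relation with coefficients in `[-K, K]`.
For `K = 1` it is weakly independent, for `K = 2` strongly independent. -/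
def Independent (K : ℕ) (a : ℕ → ℕ) (S : Set ℕ) : Prop :=
  ∀ s : Finset ℕ, (∀ i ∈ s, i ∈ S) → ∀ ε : ℕ → ℤ, (∀ i ∈ s, |ε i| ≤ K) →
    ∑ i ∈ s, ε i * (a i : ℤ) = 0 → ∀ i ∈ s, ε i = 0

/-- `(a i)` is a weakly independent sequence of positive integers. -/
def Weak (a : ℕ → ℕ) : Prop := (∀ i, 0 < a i) ∧ Independent 1 a Set.univ

/-- The number of terms at most `x`. -/
noncomputable def count (a : ℕ → ℕ) (x : ℕ) : ℕ := {i | a i ≤ x}.ncard

/-- **Two classes are not enough.** -/
theorem result : ∃ a, Weak a ∧ (∀ x : ℕ, 1 ≤ x → Real.logb 2 x ≤ count a x + 2) ∧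
    ¬ ∃ f : ℕ → Fin 2, ∀ j, Independent 2 a {i | f i = j} :=
  ⟨Pool.Agent.H5.WI.low, ⟨Pool.Agent.H5.WI.low_pos, Pool.Agent.H5.WI.low_ind⟩,
    Pool.Agent.H5.WI.low_count, Pool.Agent.H5.WI.low_col⟩

end Pool.Agent.Results.MP_155122_nt.ThreeClasses
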